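import Mathlib

set_option autoImplicit false
open Set Filter Topology TopologicalSpace

namespace Pool.Agent.H.MP_b4086f

noncomputable def q : ℕ → ℝ := denseSeq ℝ

theorem qd : DenseRange q := denseRange_denseSeq ℝ

noncomputable def b (k : ℕ) : Set ℝ := Metric.ball (q k.unpair.1) (1 / ((k.unpair.2 : ℝ) + 1))

theorem bo (k : ℕ) : IsOpen (b k) := Metric.isOpen_ball

theorem bn (k : ℕ) : (b k).Nonempty := ⟨_, Metric.mem_ball_self (by positivity)⟩

theorem bb (U : Set ℝ) (hU : IsOpen U) (hn : U.Nonempty) : ∃ k, b k ⊆ U := by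
  obtain ⟨n, hx⟩ := qd.exists_mem_open hU hn
  obtain ⟨e, he, h⟩ := Metric.isOpen_iff.1 hU _ hx
  obtain ⟨m, hm⟩ := exists_nat_one_div_lt he
  refine ⟨Nat.pair n m, ?_⟩
  simp only [b, Nat.unpair_pair]
  exact (Metric.ball_subset_ball hm.le).trans h

open Classical in
noncomputable def J (j k : ℕ) : Set ℝ := if b k ⊆ b j then b k else b j

theorem Jo (j k : ℕ) : IsOpen (J j k) := by unfold J; split_ifs <;> exact bo _
theorem Jn (j k : ℕ) : (J j k).Nonempty := by unfold J; split_ifs <;> exact bn _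
theorem Js (j k : ℕ) : J j k ⊆ b j := by
  unfold J; split_ifs with h
  · exact h
  · exact Subset.rfl

def Z (j n : ℕ) : Set ℝ := insert (-1) {r | q n ∈ J j ⌊r⌋₊}

noncomputable def rho (n : ℕ) (x : ℕ → ℝ) : ℝ :=
  ∏ j ∈ Finset.range (n + 1), 2 * Metric.infDist (x j) (Z j n)

noncomputable def g (n : ℕ) : {f : (ℕ → ℝ) → ℝ // Continuous f} :=
  ⟨fun x => q n + (n + |q n|) * rho n x, by
    unfold rho
    refine continuous_const.add (continuous_const.mul (continuous_finset_prod _ fun j _ => ?_))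
    exact continuous_const.mul ((Metric.continuous_infDist_pt _).comp (continuous_apply j))⟩

theorem big (N : Set ℕ) (h : interior (closure (q '' N)) = ∅) :
    ∃ z : ℕ → ℝ, ∀ n ∈ N, (n : ℝ) ≤ (g n).1 z := by
  have h1 : ∀ j, ∃ k, ∀ n ∈ N, q n ∉ J j k := by
    intro j
    have hd : Dense (closure (q '' N))ᶜ := interior_eq_empty_iff_dense_compl.1 h
    obtain ⟨k, hk⟩ := bb (b j ∩ (closure (q '' N))ᶜ) ((bo j).inter isClosed_closure.isOpen_compl)
      (hd.inter_open_nonempty _ (bo j) (bn j))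
    refine ⟨k, fun n hn hq => ?_⟩
    have : J j k = b k := if_pos (hk.trans inter_subset_left)
    rw [this] at hq
    exact (hk hq).2 (subset_closure ⟨n, hn, rfl⟩)
  choose k hk using h1
  refine ⟨fun j => k j + 1 / 2, fun n hn => ?_⟩
  have h2 : 1 ≤ rho n (fun j => k j + 1 / 2) := by
    unfold rho
    refine Finset.prod_induction _ (fun a => 1 ≤ a) (fun a c ha hc => one_le_mul_of_one_le_of_one_le ha hc)
      le_rfl fun j _ => ?_
    have : 1 / 2 ≤ Metric.infDist ((k j : ℝ) + 1 / 2) (Z j n) := by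
      refine (Metric.le_infDist ⟨-1, mem_insert _ _⟩).2 fun y hy => ?_
      have k0 : (0 : ℝ) ≤ k j := Nat.cast_nonneg _
      rw [Real.dist_eq]
      rcases hy with rfl | hy
      · rw [le_abs]; left; linarith
      · by_contra hc
        rw [not_le, abs_lt] at hc
        have : ⌊y⌋₊ = k j := (Nat.floor_eq_iff (by linarith)).2 ⟨by linarith, by linarith⟩
        simp only [mem_ofPred_eq, this] at hy
        exact hk j n hn hy
    linarith
  have h3 : (0 : ℝ) ≤ n + |q n| := by positivity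
  have h4 := neg_abs_le (q n)
  show (n : ℝ) ≤ q n + (n + |q n|) * rho n _
  nlinarith

theorem sml (x : ℕ → ℝ) : Dense (interior {r | ∀ n, q n = r → rho n x = 0}) := by
  refine dense_iff_inter_open.2 fun U hU hn => ?_
  obtain ⟨j, hj⟩ := bb U hU hn
  have hf : (q '' Iio j).Finite := (finite_Iio j).image q
  have ho : IsOpen (J j ⌊x j⌋₊ ∩ (q '' Iio j)ᶜ) := (Jo _ _).inter hf.isClosed.isOpen_compl
  obtain ⟨r, hr⟩ : (J j ⌊x j⌋₊ ∩ (q '' Iio j)ᶜ).Nonempty := by
    obtain ⟨r, hr⟩ := Jn j ⌊x j⌋₊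
    exact ((infinite_of_mem_nhds r ((Jo j ⌊x j⌋₊).mem_nhds hr)).diff hf).nonempty
  refine ⟨r, hj (Js _ _ hr.1), mem_interior.2 ⟨_, ?_, ho, hr⟩⟩
  rintro s hs n rfl
  have hjn : j ≤ n := not_lt.1 fun h => hs.2 ⟨n, h, rfl⟩
  unfold rho
  refine Finset.prod_eq_zero (i := j) (Finset.mem_range.2 (by omega)) ?_
  rw [Metric.infDist_zero_of_mem (show x j ∈ Z j n from mem_insert_of_mem _ hs.1), mul_zero]

def G : Filter ℝ where
  sets := {S | Dense (interior S)}
  univ_sets := by simp
  sets_of_superset := fun h hs => Dense.mono (interior_mono hs) h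
  inter_sets := fun h1 h2 => by
    simp only [mem_ofPred_eq, interior_inter]
    exact Dense.inter_of_isOpen_left h1 h2 isOpen_interior

def cst (c : ℝ) : {f : (ℕ → ℝ) → ℝ // Continuous f} := ⟨fun _ => c, continuous_const⟩

theorem clo (N : Set ℕ) (c : ℝ) (hc : c ∈ interior (closure (q '' N))) :
    cst c ∈ closure (g '' N) := by
  have hne : (comap q (𝓝 c ⊓ G) ⊓ 𝓟 N).NeBot := by
    rw [inf_principal_neBot_iff]
    intro V hV
    obtain ⟨W, hW, hWV⟩ := mem_comap.1 hV
    obtain ⟨A, hA, S, hS, rfl⟩ := mem_inf_iff.1 hW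
    have hS : Dense (interior S) := hS
    have ho : IsOpen (interior A ∩ interior (closure (q '' N))) := isOpen_interior.inter isOpen_interior
    obtain ⟨r, hr⟩ := hS.inter_open_nonempty _ ho ⟨c, mem_interior_iff_mem_nhds.2 hA, hc⟩
    obtain ⟨s, hs, n, hn, rfl⟩ := mem_closure_iff.1 (interior_subset hr.1.2) _
      (isOpen_interior.inter isOpen_interior) (show r ∈ interior A ∩ interior S from ⟨hr.1.1, hr.2⟩)
    exact ⟨n, hWV ⟨interior_subset hs.1, interior_subset hs.2⟩, hn⟩
  refine mem_closure_of_tendsto (b := comap q (𝓝 c ⊓ G) ⊓ 𝓟 N) (f := g) ?_ ?_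
  · rw [tendsto_subtype_rng, tendsto_pi_nhds]
    intro x
    have h1 : Tendsto q (comap q (𝓝 c ⊓ G) ⊓ 𝓟 N) (𝓝 c) :=
      (tendsto_comap.mono_left inf_le_left).mono_right inf_le_left
    have h2 : Tendsto q (comap q (𝓝 c ⊓ G) ⊓ 𝓟 N) G :=
      (tendsto_comap.mono_left inf_le_left).mono_right inf_le_right
    refine h1.congr' ?_
    filter_upwards [h2 (show {r | ∀ n, q n = r → rho n x = 0} ∈ G from sml x)] with n hn
    show q n = q n + (n + |q n|) * rho n x
    rw [hn n rfl]; ring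
  · exact mem_inf_of_right (mem_principal.2 fun n hn => ⟨n, hn, rfl⟩)

theorem unc (N : Set ℕ) (h : interior (closure (q '' N)) ≠ ∅) : ¬ (closure (g '' N)).Countable := by
  intro hc
  have hi : Function.Injective cst := fun a c h => congrFun (congrArg Subtype.val h) 0
  have h1 : (interior (closure (q '' N))).Countable :=
    (hc.preimage_of_injOn hi.injOn).mono fun c hc => clo N c hc
  obtain ⟨k, hk⟩ := bb _ isOpen_interior (nonempty_iff_ne_empty.2 h)
  have h2 := h1.mono hk
  unfold b at h2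
  rw [Real.ball_eq_Ioo, ← Cardinal.le_aleph0_iff_set_countable, Cardinal.mk_Ioo_real] at h2
  · exact absurd h2 (not_le.2 Cardinal.aleph0_lt_continuum)
  · have : (0 : ℝ) < 1 / ((k.unpair.2 : ℝ) + 1) := by positivity
    linarith

theorem cls (N : Set ℕ) (h : interior (closure (q '' N)) = ∅) : closure (g '' N) ⊆ range g := by
  obtain ⟨z, hz⟩ := big N h
  intro f hf
  obtain ⟨m, hm⟩ := exists_nat_gt (f.1 z)
  have ho : IsOpen {u : {f : (ℕ → ℝ) → ℝ // Continuous f} | u.1 z < m} :=
    isOpen_lt ((continuous_apply z).comp continuous_subtype_val) continuous_const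
  have h1 := ho.inter_closure ⟨hm, hf⟩
  have h2 : (g '' Iio m).Finite := (finite_Iio m).image g
  have h3 := closure_mono (t := g '' Iio m) (by
    rintro u ⟨hu, n, hn, rfl⟩
    exact ⟨n, by exact_mod_cast (hz n hn).trans_lt hu, rfl⟩) h1
  rw [h2.isClosed.closure_eq] at h3
  exact image_subset_range _ _ h3

end Pool.Agent.H.MP_b4086f
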